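import Pool.Agent.NPG.Stmts

/-!
# Squad NPG, row DSQ: a uniformly discrete sequence
-/

set_option autoImplicit false

open MeasureTheory Set Topology
open scoped BigOperators Pointwise

namespace Pool.Agent.NPG.H16

open Pool.Agent.LSG Pool.Agent.NPG

/-- An open symmetric neighbourhood of `1` inside a given one. -/
theorem exists_symm {H : Type} [Group H] [TopologicalSpace H] [IsTopologicalGroup H]
    {U : Set H} (hU : U ∈ nhds (1 : H)) :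
    ∃ V : Set H, IsOpen V ∧ (1 : H) ∈ V ∧ (∀ x ∈ V, x⁻¹ ∈ V) ∧ V ⊆ U := by
  obtain ⟨W, hWU, hW, h1⟩ := mem_nhds_iff.1 hU
  refine ⟨W ∩ (fun x => x⁻¹) ⁻¹' W, hW.inter (hW.preimage continuous_inv), ⟨h1, ?_⟩, ?_,
    fun x hx => hWU hx.1⟩
  · change (1 : H)⁻¹ ∈ W
    rw [inv_one]
    exact h1
  · rintro x ⟨h2, h3⟩
    refine ⟨h3, ?_⟩
    change (x⁻¹)⁻¹ ∈ W
    rw [inv_inv]
    exact h2

/-- **Row DSQ.** -/
theorem dsq : DsqStmt := by
  classical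
  intro H _ _ _ hH
  obtain ⟨U, hU, hF⟩ := hH
  obtain ⟨U₁, hU₁o, hU₁1, hU₁s, hU₁U⟩ := exists_symm hU
  obtain ⟨V₀, hV₀, hV₀m⟩ := exists_nhds_one_split4 (hU₁o.mem_nhds hU₁1)
  obtain ⟨V, hVo, hV1, hVs, hVV⟩ := exists_symm hV₀
  have hex : ∀ F : Finset H, (∀ x ∈ F, True) → ∃ y : H, True ∧ ∀ x ∈ F, y * x⁻¹ ∉ U₁ := by
    intro F _
    by_contra hcon
    push Not at hcon
    apply hF (F.image fun g => g⁻¹)
    rw [Set.eq_univ_iff_forall]
    intro x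
    obtain ⟨g, hg, hgx⟩ := hcon x⁻¹ trivial
    simp only [Set.mem_iUnion]
    refine ⟨g⁻¹, Finset.mem_image_of_mem _ hg, ?_⟩
    rw [Set.mem_smul_set_iff_inv_smul_mem, smul_eq_mul, inv_inv]
    have h1 := hU₁s _ hgx
    rw [mul_inv_rev, inv_inv, inv_inv] at h1
    exact hU₁U h1
  obtain ⟨d, -, hd⟩ := exists_seq_of_forall_finset_exists (fun _ : H => True)
    (fun x y => y * x⁻¹ ∉ U₁) hex
  have hVU : V * V * V * V ⊆ U₁ := by
    rintro _ ⟨_, ⟨_, ⟨a, ha, b, hb, rfl⟩, c, hc, rfl⟩, e, he, rfl⟩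
    exact hV₀m (hVV ha) (hVV hb) (hVV hc) (hVV he)
  refine ⟨V, d, hVo, hV1, hVs, fun s r hsr hmem => ?_⟩
  rcases lt_or_gt_of_ne hsr with h | h
  · apply hd s r h
    have h1 := hU₁s _ (hVU hmem)
    rw [mul_inv_rev, inv_inv] at h1
    exact h1
  · exact hd r s h (hVU hmem)

end Pool.Agent.NPG.H16
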